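import Mathlib
import Pool.Agent.WFS.Basic

/-! # A checker for chains of elementary strong shift equivalences

Matrices are lists of rows. A chain is a list of pairs `(R, S)`, each matrix written as one natural number
in base 8 (row by row, least digit first). -/

set_option autoImplicit false

namespace Pool.Agent.WFA

open Pool.Agent.WFS

/-- entry of a matrix given by its rows -/
def ent (M : List (List ℕ)) (i j : ℕ) : ℕ := (M.getD i []).getD j 0

/-- the matrix of size `k` given by a list of rows -/
def mx (k : ℕ) (M : List (List ℕ)) : Matrix (Fin k) (Fin k) ℕ := fun i j => ent M i j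

/-- sum of two rows -/
def addRow : List ℕ → List ℕ → List ℕ
  | [], v => v
  | a :: u, [] => a :: u
  | a :: u, b :: v => (a + b) :: addRow u v

/-- row times matrix -/
def rowMul : List ℕ → List (List ℕ) → List ℕ
  | [], _ => []
  | _ :: _, [] => []
  | 0 :: r, _ :: S => rowMul r S
  | (a + 1) :: r, s :: S => addRow (s.map ((a + 1) * ·)) (rowMul r S)

/-- all entries are zero -/
def allz : List ℕ → Bool
  | [] => true
  | 0 :: u => allz u
  | (_ + 1) :: _ => false

/-- equality of rows up to zeros at the end -/
def eqz : List ℕ → List ℕ → Bool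
  | [], v => allz v
  | a :: u, [] => allz (a :: u)
  | a :: u, b :: v => a.beq b && eqz u v

/-- equality of matrices up to zeros at the ends of the rows -/
def eqm : List (List ℕ) → List (List ℕ) → Bool
  | [], [] => true
  | u :: M, v :: N => eqz u v && eqm M N
  | _, _ => false

/-- product of two matrices -/
def mulL (R S : List (List ℕ)) : List (List ℕ) := R.map fun r => rowMul r S

/-- the first `c` digits of `N` in base 8 -/
def decRow : ℕ → ℕ → List ℕ
  | 0, _ => []
  | c + 1, N => (N % 8) :: decRow c (N / 8)

/-- the matrix with `r` rows and `c` columns written in `N` -/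
def dec (c : ℕ) : ℕ → ℕ → List (List ℕ)
  | 0, _ => []
  | r + 1, N => decRow c N :: dec c r (N / 8 ^ c)

/-- the checker -/
def okc : List (List ℕ) → List (ℕ × ℕ × ℕ × ℕ) → List (List ℕ) → Bool
  | A, [], B => eqm A B
  | A, (k, l, x, y) :: c, B =>
    eqm (mulL (dec l k x) (dec k l y)) A && okc (mulL (dec k l y) (dec l k x)) c B

theorem addRow_getD (u v : List ℕ) (j : ℕ) :
    (addRow u v).getD j 0 = u.getD j 0 + v.getD j 0 := by
  induction u generalizing v j with
  | nil => simp [addRow]
  | cons a u ih =>
    cases v with
    | nil => simp [addRow]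
    | cons b v =>
      cases j with
      | zero => simp [addRow]
      | succ j => simpa [addRow] using ih v j

theorem map_getD (a : ℕ) (s : List ℕ) (j : ℕ) : (s.map (a * ·)).getD j 0 = a * s.getD j 0 := by
  induction s generalizing j with
  | nil => simp
  | cons b s ih =>
    cases j with
    | zero => simp
    | succ j => simpa using ih j

theorem allz_getD (u : List ℕ) (h : allz u = true) (j : ℕ) : u.getD j 0 = 0 := by
  induction u generalizing j with
  | nil => simp
  | cons a u ih =>
    cases a with
    | zero =>
      cases j with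
      | zero => simp
      | succ j => simpa using ih h j
    | succ a => exact absurd h (by simp [allz])

theorem eqz_getD (u v : List ℕ) (h : eqz u v = true) (j : ℕ) : u.getD j 0 = v.getD j 0 := by
  induction u generalizing v j with
  | nil => rw [allz_getD v h j]; simp
  | cons a u ih =>
    cases v with
    | nil => rw [allz_getD _ h j]; simp
    | cons b v =>
      rw [eqz, Bool.and_eq_true] at h
      have h1 : a = b := Nat.eq_of_beq_eq_true h.1
      subst h1
      cases j with
      | zero => simp
      | succ j => simpa using ih v h.2 j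

theorem eqm_len (M N : List (List ℕ)) (h : eqm M N = true) : M.length = N.length := by
  induction M generalizing N with
  | nil =>
    cases N with
    | nil => rfl
    | cons v N => exact absurd h (by simp [eqm])
  | cons u M ih =>
    cases N with
    | nil => exact absurd h (by simp [eqm])
    | cons v N =>
      rw [eqm, Bool.and_eq_true] at h
      rw [List.length_cons, List.length_cons, ih N h.2]

theorem eqm_ent (M N : List (List ℕ)) (h : eqm M N = true) (i j : ℕ) : ent M i j = ent N i j := by
  induction M generalizing N i with
  | nil =>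
    cases N with
    | nil => rfl
    | cons v N => exact absurd h (by simp [eqm])
  | cons u M ih =>
    cases N with
    | nil => exact absurd h (by simp [eqm])
    | cons v N =>
      rw [eqm, Bool.and_eq_true] at h
      cases i with
      | zero => simpa [ent] using eqz_getD u v h.1 j
      | succ i => simpa [ent] using ih N h.2 i

theorem eqm_mx (M N : List (List ℕ)) (h : eqm M N = true) :
    (⟨M.length, mx M.length M⟩ : Σ k : ℕ, Matrix (Fin k) (Fin k) ℕ) = ⟨N.length, mx N.length N⟩ := by
  have h1 : ∀ k, mx k M = mx k N := by
    intro k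
    ext i j
    exact eqm_ent M N h i j
  rw [eqm_len M N h, h1]

theorem rowMul_getD (r : List ℕ) (S : List (List ℕ)) (j : ℕ) :
    (rowMul r S).getD j 0 = ∑ t ∈ Finset.range S.length, r.getD t 0 * ent S t j := by
  induction S generalizing r with
  | nil => cases r <;> simp [rowMul]
  | cons s S ih =>
    cases r with
    | nil => simp [rowMul]
    | cons a r =>
      cases a with
      | zero =>
        rw [rowMul, ih, List.length_cons, Finset.sum_range_succ']
        simp [ent]
      | succ a =>
        rw [rowMul, addRow_getD, map_getD, ih, List.length_cons, Finset.sum_range_succ']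
        simp only [ent, List.getD_cons_zero, List.getD_cons_succ]
        exact Nat.add_comm _ _

theorem ent_mulL (R S : List (List ℕ)) (i j : ℕ) :
    ent (mulL R S) i j = ∑ t ∈ Finset.range S.length, ent R i t * ent S t j := by
  have h : (mulL R S).getD i [] = rowMul (R.getD i []) S := by
    have h2 := List.getD_map (l := R) (d := []) (n := i) (fun r => rowMul r S)
    rw [show rowMul [] S = [] from by cases S <;> rfl] at h2
    exact h2
  rw [ent, h, rowMul_getD]
  rfl

theorem mx_mul (a b : ℕ) (R S : List (List ℕ)) (hS : S.length = b) :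
    mx a (mulL R S) = (Matrix.of fun (i : Fin a) (j : Fin b) => ent R i j) *
      (Matrix.of fun (i : Fin b) (j : Fin a) => ent S i j) := by
  ext i j
  rw [Matrix.mul_apply, mx, ent_mulL, hS, ← Fin.sum_univ_eq_sum_range]
  rfl

theorem length_mulL (R S : List (List ℕ)) : (mulL R S).length = R.length := by
  simp [mulL]

theorem est_of (R S : List (List ℕ)) :
    Est ⟨R.length, mx R.length (mulL R S)⟩ ⟨S.length, mx S.length (mulL S R)⟩ :=
  ⟨_, _, mx_mul _ _ R S rfl, mx_mul _ _ S R rfl⟩

theorem okc_sse (c : List (ℕ × ℕ × ℕ × ℕ)) (A B : List (List ℕ)) (h : okc A c B = true) :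
    Sse ⟨A.length, mx A.length A⟩ ⟨B.length, mx B.length B⟩ := by
  induction c generalizing A with
  | nil =>
    rw [okc] at h
    rw [eqm_mx A B h]
    exact Sse.refl _
  | cons p c ih =>
    obtain ⟨k, l, x, y⟩ := p
    rw [okc, Bool.and_eq_true] at h
    obtain ⟨h1, h2⟩ := h
    have h3 := ih _ h2
    rw [length_mulL] at h3
    have h4 := (est_of (dec l k x) (dec k l y)).sse
    have h5 := eqm_mx _ _ h1
    rw [length_mulL] at h5
    rw [h5] at h4
    exact h4.trans h3

theorem sse_tr {X Y : Σ k : ℕ, Matrix (Fin k) (Fin k) ℕ} (h : Sse X Y) :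
    Sse ⟨X.1, X.2.transpose⟩ ⟨Y.1, Y.2.transpose⟩ := by
  have h1 : ∀ {X Y : Σ k : ℕ, Matrix (Fin k) (Fin k) ℕ}, Est X Y →
      Est ⟨X.1, X.2.transpose⟩ ⟨Y.1, Y.2.transpose⟩ := by
    intro X Y h
    obtain ⟨R, S, hR, hS⟩ := h
    exact ⟨S.transpose, R.transpose, by rw [hR, Matrix.transpose_mul],
      by rw [hS, Matrix.transpose_mul]⟩
  induction h with
  | single h => exact (h1 h).sse
  | tail _ h2 ih => exact ih.trans (h1 h2).sse

end Pool.Agent.WFA
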